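import Pool.Agent.Helper68.SK.Goals

/-!
PROJECT SK, packet STARPAIR.
-/

namespace Pool.Agent.Helper35.SK

open Finset Pool.Agent.Helper52.C2 Pool.Agent.Helper68.SK

/-- the windows depend only on the assignment -/
theorem pos_congr {J : Type} [Fintype J] [DecidableEq J]
    (Φ : (J → Tg) → LaurentPolynomial ℝ) (K K' : J → Prop) [i1 : DecidablePred K]
    [i2 : DecidablePred K'] (a a' : J → Tg) (h : ∀ l, K l ↔ K' l)
    (ha : ∀ l, ¬ K l → a l = a' l) (H : Pos Φ K a) : Pos Φ K' a' := by
  obtain rfl : K = K' := funext fun l => propext (h l)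
  have e : ∀ n, @asg _ K i1 a n = @asg _ K i2 a' n := by
    intro n
    funext k
    unfold asg
    by_cases hk : K k
    · rw [if_pos hk, if_pos hk]
    · rw [if_neg hk, if_neg hk, ha k hk]
  intro n i hn
  have h1 := H n i hn
  have h2 : @kwin _ _ Φ K i1 a n i = @kwin _ _ Φ K i2 a' n i := by
    funext d d'
    cases d <;> cases d' <;> simp only [kwin, e]
  rw [h2] at h1
  exact h1

/-- replacement of the channels of a finite set -/
theorem pos_set (hS : GoalSubst) {J : Type} [Fintype J] [DecidableEq J]
    (Φ : (J → Tg) → LaurentPolynomial ℝ) (hA1 : Affine Φ) (hA2 : SlotNonneg Φ)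
    (nU : (U 0).Nonneg) (h : Pos Φ (fun _ => True) (fun _ => U 0)) (A : J → Tg)
    (hA : ∀ l, (A l).HH1) (s : Finset J) :
    Pos Φ (fun l => l ∉ s) (fun l => if l ∈ s then A l else U 0) := by
  induction s using Finset.induction_on with
  | empty =>
    refine pos_congr Φ _ _ _ _ ?_ ?_ h
    · intro l; simp
    · intro l hl; exact absurd trivial hl
  | insert k s hk ih =>
    have n0 : ∀ l, ((fun l => if l ∈ s then A l else U 0) l).Nonneg := by
      intro l
      beta_reduce
      by_cases hl : l ∈ s
      · rw [if_pos hl]; exact (hA l).nonneg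
      · rw [if_neg hl]; exact nU
    have p := hS J Φ hA1 hA2 (fun l => l ∉ s) (fun l => if l ∈ s then A l else U 0) k (A k)
      n0 hk (hA k) ih
    refine pos_congr Φ _ _ _ _ ?_ ?_ p
    · intro l
      rw [Finset.mem_insert]
      tauto
    · intro l hl
      by_cases hlk : l = k
      · subst hlk
        simp
      · rw [Function.update_of_ne hlk]
        have hls : l ∈ s := by
          by_contra hc
          exact hl ⟨hc, hlk⟩
        rw [if_pos hls, if_pos (Finset.mem_insert_of_mem hls)]

/-- STARPAIR. -/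
theorem starPair : Pool.Agent.Helper68.SK.GoalStarPair := by
  intro hK hAff hN hS hC hO hP r S T hSS hTT W hW
  obtain ⟨hA1, hA2, -⟩ := (hAff hN) (r + 1)
  have hslot := ((hAff hN) r).2.2
  have nU : (U 0).Nonneg := hN.2 0 le_rfl
  set A : Fin (r + 1) × Bool → Tg := fun e =>
    Fin.lastCases (motive := fun _ => Tg) W (fun i => if e.2 then T i else S i) e.1 with hAdef
  have hAl : ∀ b, A (Fin.last r, b) = W := by
    intro b
    simp [hAdef]
  have hAf : ∀ i : Fin r, A (i.castSucc, false) = S i := by
    intro i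
    simp [hAdef]
  have hAt : ∀ i : Fin r, A (i.castSucc, true) = T i := by
    intro i
    simp [hAdef]
  have hA : ∀ l, (A l).HH1 := by
    rintro ⟨i, b⟩
    refine Fin.lastCases ?_ ?_ i
    · rw [hAl]; exact hW
    · intro j
      cases b
      · rw [hAf]; exact hSS j
      · rw [hAt]; exact hTT j
  set w : Fin (r + 1) × Bool := (Fin.last r, true) with hw
  have p := pos_set hS (starK (r + 1)) hA1 hA2 nU (hK r) A hA (univ.erase w)
  set a : Fin (r + 1) × Bool → Tg := fun l => if l ∈ univ.erase w then A l else U 0 with ha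
  have hval : ∀ l, l ≠ w → a l = A l := by
    intro l hl
    rw [ha]
    beta_reduce
    rw [if_pos (Finset.mem_erase.2 ⟨hl, Finset.mem_univ _⟩)]
  have nA : ∀ l, (a l).Nonneg := by
    intro l
    by_cases hl : l = w
    · rw [ha]
      beta_reduce
      rw [if_neg (by rw [hl]; simp)]
      exact nU
    · rw [hval l hl]; exact (hA l).nonneg
  have q := hP hC hO (Fin (r + 1) × Bool) (starK (r + 1)) _ a w hA1 (hA2 a w nA)
    (by intro k; simp) p
  rw [hw, hslot a] at q
  have e1 : ∀ i : Fin r, a (i.castSucc, false) = S i := by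
    intro i
    rw [hval _ (by rw [hw]; simp), hAf]
  have e2 : ∀ i : Fin r, a (i.castSucc, true) = T i := by
    intro i
    rw [hval _ (by rw [hw]; simp [Fin.ext_iff]; exact i.2.ne), hAt]
  have e3 : a (Fin.last r, false) = W := by
    rw [hval _ (by rw [hw]; simp), hAl]
  simp only [e1, e2, e3] at q
  exact q

end Pool.Agent.Helper35.SK
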